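import Pool.Agent.W312.WT.StmP
import Pool.Agent.NPC.Dec
import Pool.Agent.NPC.Classes

/-!
# Assembly: the scheduling problem is solvable in polynomial time
-/

set_option autoImplicit false

namespace Pool.Agent.W312.WT

open Pool.Agent.NPC

theorem named_length (L : List (ℕ × ℕ)) : (named L).length = L.length := by simp [named]

theorem main_math (hOut : SOut)
    (hLow : ∀ (p : ℕ) (L : List (ℕ × ℕ)) (S : Sched p L.length), 1 ≤ p →
      ∃ l : List (Jb × ℕ), (l.map Prod.fst).Perm (named L) ∧ ChnT p 0 0 (l.map Prod.snd) ∧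
        (∀ e ∈ l, (e.2 : ℤ) ∈ latS p (named L)) ∧ (cst l : ℝ) ≤ S.cost L)
    (hLat : SLat)
    (hSol : ∀ (p : ℕ) (L : List Jb), 1 ≤ p →
      ((solve p L).map Prod.fst).Perm L ∧ ChnT p 0 0 ((solve p L).map Prod.snd) ∧
      ∀ l : List (Jb × ℕ), (l.map Prod.fst).Perm L → ChnT p 0 0 (l.map Prod.snd) →
        (∀ e ∈ l, e.2 ∈ cands p L) → cst (solve p L) ≤ cst l)
    (p : ℕ) (L : List (ℕ × ℕ)) (hp : 1 ≤ p) :
    ∃ S : Sched p L.length,
      (∀ (j : Fin L.length) (q : Bool × ℝ × ℝ), q ∈ S.pieces j ↔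
        ∃ r ∈ (output p L.length (solve p (named L))).getD j [], castP r = q) ∧
      (∀ j, (S.pieces j).card ≤ 2) ∧ S.cost L = (cst (solve p (named L)) : ℝ) ∧
      ∀ S' : Sched p L.length, S.cost L ≤ S'.cost L := by
  obtain ⟨h1, h2, h3⟩ := hSol p (named L) hp
  obtain ⟨S, hS1, hS2, hS3⟩ := hOut p L (solve p (named L)) hp h1 h2
  have hlow : ∀ S' : Sched p L.length, (cst (solve p (named L)) : ℝ) ≤ S'.cost L := by
    intro S'
    obtain ⟨l, hl1, hl2, hl3, hl4⟩ := hLow p L S' hp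
    have hlen : l.length = L.length := by
      have := hl1.length_eq
      rw [List.length_map, named_length] at this
      exact this
    have : cst (solve p (named L)) ≤ cst l := by
      refine h3 l hl1 hl2 fun e he => ?_
      refine (hLat p (named L) hp).2.2 e.2 (hl3 e he) ?_
      have := (hl2.bounds e.2 (List.mem_map_of_mem he)).2
      rw [List.length_map, Nat.zero_add, hlen] at this
      rw [named_length]
      exact this
    exact le_trans (by exact_mod_cast this) hl4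
  have heq : S.cost L = (cst (solve p (named L)) : ℝ) := le_antisymm hS3 (hlow S)
  exact ⟨S, hS1, hS2, heq, fun S' => heq ▸ hlow S'⟩

/-- the decision test -/
def test (q : ℕ × List (ℕ × ℕ) × ℕ) : Bool :=
  decide (1 ≤ q.1) && decide (cst (solve q.1 (named q.2.1)) ≤ q.2.2)

theorem poly_test (hsolve : Poly (fun q : ℕ × List Jb => solve q.1 q.2)) (hnamed : PNamed)
    (hcst : PCst) : Poly test := by
  refine Poly.and (Poly.decide_le (NPC.Poly.const _) (Poly.fst Poly.id)) (Poly.decide_le ?_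
    (Poly.snd (Poly.snd Poly.id)))
  exact Poly.comp hcst (Poly.comp hsolve (Poly.pair (Poly.fst Poly.id)
    (Poly.comp hnamed (Poly.fst (Poly.snd Poly.id)))))

/-- the value and the schedule -/
def answer (q : ℕ × List (ℕ × ℕ)) : ℕ × List (List (Bool × ℕ × ℕ)) :=
  (cst (solve q.1 (named q.2)), output q.1 q.2.length (solve q.1 (named q.2)))

theorem poly_answer (hsolve : Poly (fun q : ℕ × List Jb => solve q.1 q.2)) (hnamed : PNamed)
    (hcst : PCst) (hout : POut) : Poly answer := by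
  have h1 : Poly (fun q : ℕ × List (ℕ × ℕ) => solve q.1 (named q.2)) :=
    Poly.comp hsolve (Poly.pair (Poly.fst Poly.id) (Poly.comp hnamed (Poly.snd Poly.id)))
  refine Poly.pair (Poly.comp hcst h1) ?_
  exact Poly.comp hout (Poly.pair (Poly.fst Poly.id) (Poly.pair (Poly.snd Poly.id) h1))

theorem assembly
    (hmath : ∀ (p : ℕ) (L : List (ℕ × ℕ)), 1 ≤ p → ∃ S : Sched p L.length,
      (∀ (j : Fin L.length) (q : Bool × ℝ × ℝ), q ∈ S.pieces j ↔
        ∃ r ∈ (output p L.length (solve p (named L))).getD j [], castP r = q) ∧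
      (∀ j, (S.pieces j).card ≤ 2) ∧ S.cost L = (cst (solve p (named L)) : ℝ) ∧
      ∀ S' : Sched p L.length, S.cost L ≤ S'.cost L)
    (hsolve : Poly (fun q : ℕ × List Jb => solve q.1 q.2)) (hnamed : PNamed)
    (hcst : PCst) (hout : POut) :
    InPP (fun I : ℕ × List (ℕ × ℕ) × ℕ =>
      1 ≤ I.1 ∧ ∃ S : Sched I.1 I.2.1.length, S.cost I.2.1 ≤ (I.2.2 : ℝ)) ∧
    (∀ p : ℕ, 1 ≤ p → InPP (fun I : List (ℕ × ℕ) × ℕ =>
      ∃ S : Sched p I.1.length, S.cost I.1 ≤ (I.2 : ℝ))) ∧
    ∃ A : List Bool → List Bool, PolyTime A ∧ ∀ (p : ℕ) (L : List (ℕ × ℕ)), 1 ≤ p →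
      ∃ (v : ℕ) (out : List (List (Bool × ℕ × ℕ))) (S : Sched p L.length),
        A (bits (p, L)) = bits (v, out) ∧
        (∀ (j : Fin L.length) (q : Bool × ℝ × ℝ), q ∈ S.pieces j ↔
          ∃ r ∈ out.getD j [], castP r = q) ∧
        (∀ j, (S.pieces j).card ≤ 2) ∧ S.cost L = (v : ℝ) ∧
        ∀ S' : Sched p L.length, S.cost L ≤ S'.cost L := by
  have key : ∀ (p : ℕ) (L : List (ℕ × ℕ)) (K : ℕ), 1 ≤ p →
      ((∃ S : Sched p L.length, S.cost L ≤ (K : ℝ)) ↔ cst (solve p (named L)) ≤ K) := by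
    intro p L K hp
    obtain ⟨S, -, -, h3, h4⟩ := hmath p L hp
    constructor
    · rintro ⟨S', hS'⟩
      have := (h4 S').trans hS'
      rw [h3] at this
      exact_mod_cast this
    · intro h
      exact ⟨S, by rw [h3]; exact_mod_cast h⟩
  refine ⟨?_, fun p hp => ?_, ?_⟩
  · refine inPP_of (poly_test hsolve hnamed hcst) fun I => ?_
    simp only [test, Bool.and_eq_true, decide_eq_true_eq]
    constructor
    · rintro ⟨h1, h2⟩
      exact ⟨h1, (key _ _ _ h1).1 h2⟩
    · rintro ⟨h1, h2⟩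
      exact ⟨h1, (key _ _ _ h1).2 h2⟩
  · refine inPP_of (d := fun I : List (ℕ × ℕ) × ℕ => test (p, I)) ?_ fun I => ?_
    · exact Poly.comp (poly_test hsolve hnamed hcst) (Poly.pair (NPC.Poly.const p) Poly.id)
    · simp only [test, Bool.and_eq_true, decide_eq_true_eq]
      rw [key _ _ _ hp]
      exact ⟨fun h => ⟨hp, h⟩, fun h => h.2⟩
  · refine ⟨fun x => bits (match unbits (ℕ × List (ℕ × ℕ)) x with
      | none => ((0, []) : ℕ × List (List (Bool × ℕ × ℕ)))
      | some q => answer q), ?_, fun p L hp => ?_⟩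
    · refine polyTime_bits ?_
      refine (Poly.optCases (o := fun x : List Bool => unbits (ℕ × List (ℕ × ℕ)) x)
        (g := fun _ => ((0, []) : ℕ × List (List (Bool × ℕ × ℕ))))
        (h := fun _ q => answer q) poly_unbits (NPC.Poly.const _)
        (Poly.comp (poly_answer hsolve hnamed hcst hout) (Poly.snd Poly.id))).congr fun x => ?_
      cases unbits (ℕ × List (ℕ × ℕ)) x <;> rfl
    · obtain ⟨S, h1, h2, h3, h4⟩ := hmath p L hp
      refine ⟨_, _, S, ?_, h1, h2, h3, h4⟩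
      simp only [unbits_bits]
      rfl

end Pool.Agent.W312.WT
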