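import Mathlib

/-!
# Preemptive scheduling of jobs of equal length on two machines

Definitions for MP_df8bb0_lc: preemptive schedules on two identical machines (with real times),
completion times, total weighted tardiness; and the dynamic programme.
-/

set_option autoImplicit false

namespace Pool.Agent.W312.WT

/-- A preemptive schedule of `n` jobs, each of length `p`, on two machines (called `false` and
`true`). Job `j` consists of finitely many pieces `(machine, start, end)` with real times. The total
length of the pieces of a job is `p`. Two different pieces which belong to the same job or are on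
the same machine do not overlap. -/
structure Sched (p n : ℕ) where
  /-- the pieces of the jobs -/
  pieces : Fin n → Finset (Bool × ℝ × ℝ)
  pos : ∀ j, ∀ q ∈ pieces j, 0 ≤ q.2.1 ∧ q.2.1 < q.2.2
  total : ∀ j, ∑ q ∈ pieces j, (q.2.2 - q.2.1) = (p : ℝ)
  disj : ∀ i j, ∀ q ∈ pieces i, ∀ r ∈ pieces j, (i, q) ≠ (j, r) → (i = j ∨ q.1 = r.1) →
    q.2.2 ≤ r.2.1 ∨ r.2.2 ≤ q.2.1

/-- The completion time of job `j`: the end of its last piece. -/
noncomputable def Sched.compl {p n : ℕ} (S : Sched p n) (j : Fin n) : ℝ :=
  sSup ((fun q : Bool × ℝ × ℝ => q.2.2) '' (S.pieces j : Set (Bool × ℝ × ℝ)))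

/-- The total weighted tardiness of a schedule. The job `j` has the weight `(L.get j).1` and the due
date `(L.get j).2`. -/
noncomputable def Sched.cost {p : ℕ} (L : List (ℕ × ℕ)) (S : Sched p L.length) : ℝ :=
  ∑ j, ((L.get j).1 : ℝ) * max 0 (S.compl j - ((L.get j).2 : ℝ))

/-! ### Chains of completion times -/

/-- `ChnT p s a ts`: the times `ts` are possible as the completion times of the jobs number
`s + 1, s + 2, …` (in the order of completion) if the job number `s` completes at time `a`. -/
def ChnT (p : ℕ) : ℕ → ℕ → List ℕ → Prop
  | _, _, [] => True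
  | s, a, t :: l => a ≤ t ∧ t ≤ a + p ∧ (s + 1) * p ≤ a + t ∧ ChnT p (s + 1) t l

/-- The last element of the list `a :: l`. -/
def lastT : ℕ → List ℕ → ℕ
  | a, [] => a
  | _, t :: l => lastT t l

/-! ### The algorithm -/

/-- A job inside the algorithm: weight, due date, name. -/
abbrev Jb : Type := ℕ × ℕ × ℕ

/-- The weighted tardiness of the job `x` if it completes at time `t`. -/
def tc (x : Jb) (t : ℕ) : ℕ := x.1 * (t - x.2.1)

/-- The cost of the jobs `l` completing at the times `ts`. -/
def cz (l : List Jb) (ts : List ℕ) : ℕ := (List.zipWith tc l ts).sum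

/-- The cost of a list of jobs with completion times. -/
def cst (l : List (Jb × ℕ)) : ℕ := (l.map fun e => tc e.1 e.2).sum

/-- Keys of table entries: `(h₁, h₂), (s, s'), (a, b)`. -/
abbrev Key : Type := (ℕ × ℕ) × (ℕ × ℕ) × (ℕ × ℕ)

/-- Table entries: a key, and a list of jobs with completion times. -/
abbrev Ent : Type := Key × List (Jb × ℕ)

/-- The due date is at least `h₁` and less than `h₂`. -/
def inR (h₁ h₂ : ℕ) (x : Jb) : Bool := decide (h₁ ≤ x.2.1) && decide (x.2.1 < h₂)

/-- Combining two entries and the job `x`, which completes at the start time of the second one. -/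
def joinE (p : ℕ) (x : Jb) (e f : Ent) : List Ent :=
  if e.1.1.1 ≤ e.1.1.2 ∧ f.1.1.1 ≤ f.1.1.2 ∧ e.1.1.2 = f.1.1.1 ∧
      f.1.2.1.1 = e.1.2.1.2 + 1 ∧ e.1.2.2.2 ≤ f.1.2.2.1 ∧
      f.1.2.2.1 ≤ e.1.2.2.2 + p ∧ (e.1.2.1.2 + 1) * p ≤ e.1.2.2.2 + f.1.2.2.1 ∧
      inR e.1.1.1 f.1.1.2 x = true then
    [(((e.1.1.1, f.1.1.2), (e.1.2.1.1, f.1.2.1.2), (e.1.2.2.1, f.1.2.2.2)),
      e.2 ++ (x, f.1.2.2.1) :: f.2)]
  else []

/-- Adding the job `x` (of smaller weight) to the table. -/
def stepE (p : ℕ) (x : Jb) (T : List Ent) : List Ent :=
  T.filter (fun e => !(inR e.1.1.1 e.1.1.2 x)) ++ T.flatMap fun e => T.flatMap fun f => joinE p x e f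

/-- The cheaper one of two entries. -/
def better (o : Option Ent) (e : Ent) : Option Ent :=
  match o with
  | none => some e
  | some f => if cst e.2 < cst f.2 then some e else some f

/-- The cheapest entry of a list. -/
def best (l : List Ent) : Option Ent := l.foldl better none

/-- The cheapest entries of `T` for all keys in `U`. -/
def tabE (U : List Key) (T : List Ent) : List Ent :=
  U.flatMap fun k => (best (T.filter fun e => decide (e.1 = k))).toList

/-- All pairs of members of a list. -/
def prs (l : List ℕ) : List (ℕ × ℕ) := l.flatMap fun a => l.map fun b => (a, b)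

/-- All keys. -/
def keys (n : ℕ) (cand th : List ℕ) : List Key :=
  (prs th).flatMap fun h => (prs (List.range (n + 1))).flatMap fun s => (prs cand).map fun a =>
    (h, s, a)

/-- The first table: no job. -/
def initE (n : ℕ) (cand th : List ℕ) : List Ent :=
  (prs th).flatMap fun h => (List.range (n + 1)).flatMap fun s => cand.map fun a =>
    ((h, (s, s), (a, a)), [])

/-- The residues modulo `p` of the possible completion times. -/
def resid (p : ℕ) (L : List Jb) : List ℕ :=
  0 :: L.flatMap fun x => [x.2.1 % p, (p - x.2.1 % p) % p]

/-- The possible completion times. -/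
def cands (p : ℕ) (L : List Jb) : List ℕ :=
  (List.range (L.length + 1)).flatMap fun k => (resid p L).map fun r => k * p + r

/-- An upper bound for all due dates. -/
def topH (L : List Jb) : ℕ := (L.map fun x => x.2.1 + 1).sum

/-- The thresholds for the due dates. -/
def ths (L : List Jb) : List ℕ := 0 :: topH L :: L.map fun x => x.2.1 + 1

/-- Inserting a job into a list sorted by decreasing weights. -/
def insW (acc : List Jb) (x : Jb) : List Jb :=
  acc.filter (fun y => decide (x.1 ≤ y.1)) ++ x :: acc.filter (fun y => decide (y.1 < x.1))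

/-- Sorting the jobs by decreasing weights. -/
def sortW (L : List Jb) : List Jb := L.foldl insW []

/-- The table for the list `P` of jobs (in the order in which they are added), with the parameters
given by the list `L` of all jobs. -/
def table (p : ℕ) (L P : List Jb) : List Ent :=
  P.foldl (fun T x => tabE (keys L.length (cands p L) (ths L)) (stepE p x T))
    (initE L.length (cands p L) (ths L))

/-- The test for the entries which concern all jobs. -/
def isFull (L : List Jb) (e : Ent) : Bool :=
  decide (e.1.1 = (0, topH L)) && (decide (e.1.2.1 = (0, L.length)) && decide (e.1.2.2.1 = 0))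

/-- The solution found: jobs with completion times, in the order of completion. -/
def solve (p : ℕ) (L : List Jb) : List (Jb × ℕ) :=
  match best ((table p L (sortW L)).filter (isFull L)) with
  | none => []
  | some e => e.2

/-- The jobs of an instance, with their positions as names. -/
def named (L : List (ℕ × ℕ)) : List Jb := L.zipIdx.map fun q => (q.1.1, q.1.2, q.2)

/-- The pieces of the job number `s + 1` in the order of completion, if it completes at time `t` and
the job number `s` at time `a`. -/
def pcs (p s a t : ℕ) : List (Bool × ℕ × ℕ) :=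
  (if a < t then [(false, a, t)] else []) ++
    (if s * p - a < (s + 1) * p - t then [(true, s * p - a, (s + 1) * p - t)] else [])

/-- The pieces of all jobs (given by their names). -/
def outL (p : ℕ) : ℕ → ℕ → List (Jb × ℕ) → List (ℕ × List (Bool × ℕ × ℕ))
  | _, _, [] => []
  | s, a, e :: l => (e.1.2.2, pcs p s a e.2) :: outL p (s + 1) e.2 l

/-- The output: the lists of the pieces of the jobs. -/
def output (p n : ℕ) (l : List (Jb × ℕ)) : List (List (Bool × ℕ × ℕ)) :=
  (List.range n).map fun j => (outL p 0 0 l).flatMap fun q => if q.1 = j then q.2 else []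

/-- An integer piece as a real piece. -/
def castP (q : Bool × ℕ × ℕ) : Bool × ℝ × ℝ := (q.1, (q.2.1 : ℝ), (q.2.2 : ℝ))

end Pool.Agent.W312.WT
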