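import Pool.Agent.W312.WT.Lem

/-!
# The mathematical parts of the proof

Every part is a proposition; the hypotheses of the parts are other parts.
-/

set_option autoImplicit false

namespace Pool.Agent.W312.WT

/-! ### Schedules give inequalities for the completion times -/

/-- (LEN) Disjoint intervals inside `[a, b]` have total length at most `b - a`.
Proof: the open intervals `Ioo (s i) (e i)` are pairwise disjoint and contained in `Icc a b`; compare
the Lebesgue measures (`MeasureTheory.measure_biUnion_finset`, `Real.volume_Ioo`), or induction on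
the number of intervals (remove the interval with the largest end). -/
def SLen : Prop :=
  ∀ (ι : Type) (F : Finset ι) (s e : ι → ℝ) (a b : ℝ), a ≤ b →
    (∀ i ∈ F, a ≤ s i ∧ s i ≤ e i ∧ e i ≤ b) →
    (∀ i ∈ F, ∀ j ∈ F, i ≠ j → e i ≤ s j ∨ e j ≤ s i) → ∑ i ∈ F, (e i - s i) ≤ b - a

/-- (CPL) The completion time is attained. Proof: for `p ≥ 1` there is a piece (the sum of the
lengths is `p > 0`), and the supremum of a nonempty finite set is its maximum
(`Set.Finite`, `IsGreatest.csSup_mem`, `le_csSup`). -/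
def SCpl : Prop :=
  ∀ (p n : ℕ) (S : Sched p n) (j : Fin n), 1 ≤ p →
    (∃ q ∈ S.pieces j, q.2.2 = S.compl j) ∧ ∀ q ∈ S.pieces j, q.2.2 ≤ S.compl j

/-- (NECA) Every completion time is at least `p`. Proof: the pieces of job `u` are pairwise disjoint
(the field `disj` with `i = j`) and contained in `[0, compl u]`; use (LEN). -/
def SNecA : Prop :=
  SLen → SCpl → ∀ (p n : ℕ) (S : Sched p n) (u : Fin n), 1 ≤ p → (p : ℝ) ≤ S.compl u

/-- (NECB) The basic inequality. Proof: let `T = compl u`. For a piece `q` put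
`c q = min q.end T - min q.start T ≥ 0`. For each machine, the sum of `c q` over all pieces of all
jobs on this machine is at most `T`: apply (LEN) with `[0, T]` to the intervals
`[min q.start T, min q.end T]` (index set: the pairs `(i, q)`, `q ∈ pieces i`, `q` on the machine;
e.g. `Finset.univ.sigma`); hence the sum over all jobs and pieces is at most `2 T`. A job `i` with
`compl i ≤ T` contributes exactly `p`. The job `v` contributes
`p - ∑ (max q.end T - max q.start T)`, since `(e - s) = (min e T - min s T) + (max e T - max s T)`,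
and the last sum is at most `compl v - T` by (LEN) with `[T, compl v]` applied to the pieces of `v`.
The other jobs contribute at least `0`. Altogether `p * card + p - (compl v - T) ≤ 2 T`. -/
def SNecB : Prop :=
  SLen → SCpl → ∀ (p n : ℕ) (S : Sched p n) (u v : Fin n), 1 ≤ p → u ≠ v →
    S.compl u ≤ S.compl v →
    (p : ℝ) * (((Finset.univ.filter fun i : Fin n => i ≠ v ∧ S.compl i ≤ S.compl u).card : ℝ) + 1) ≤
      S.compl u + S.compl v

/-- A sorted sequence of (real) completion times, with `x 0 = 0`. -/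
def Chain (p n : ℕ) (x : ℕ → ℝ) : Prop :=
  x 0 = 0 ∧ ∀ j < n, x j ≤ x (j + 1) ∧ ((j : ℝ) + 1) * p ≤ x j + x (j + 1)

/-- (SRT) Sorting the completion times. Proof: `e = Tuple.sort C`, `x 0 = 0`, `x (j + 1) = C (e j)`.
For `j = 0`: `x 0 + x 1 = C (e 0) ≥ p`. For `j ≥ 1` use the hypothesis with `u = e (j - 1)`,
`v = e j`: the set on the left contains `e 0, …, e (j - 1)`, so its cardinality is at least `j`. -/
def SSrt : Prop :=
  ∀ (p n : ℕ) (C : Fin n → ℝ), (∀ u, (p : ℝ) ≤ C u) →
    (∀ u v : Fin n, u ≠ v → C u ≤ C v →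
      (p : ℝ) * (((Finset.univ.filter fun i : Fin n => i ≠ v ∧ C i ≤ C u).card : ℝ) + 1) ≤
        C u + C v) →
    ∃ (e : Equiv.Perm (Fin n)) (x : ℕ → ℝ), (∀ j : Fin n, x (j + 1) = C (e j)) ∧ Chain p n x

/-! ### Rounding to a lattice -/

/-- A set of integers which contains `0` and is closed under all `s ↦ k p - s`. -/
structure Lat (p : ℕ) (S : Set ℤ) : Prop where
  zero : (0 : ℤ) ∈ S
  refl : ∀ k s : ℤ, s ∈ S → k * p - s ∈ S

/-- `dn t` and `up t` are the elements of `S` next to the real number `t`. -/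
def IsDU (S : Set ℤ) (dn up : ℝ → ℤ) : Prop :=
  ∀ t : ℝ, dn t ∈ S ∧ up t ∈ S ∧ (dn t : ℝ) ≤ t ∧ t ≤ up t ∧
    (∀ s ∈ S, (s : ℝ) ≤ t → s ≤ dn t) ∧ ∀ s ∈ S, t ≤ (s : ℝ) → up t ≤ s

/-- (DU) Existence. Proof: all multiples of `p` are in `S` (`refl k 0 zero`), so for every `t` there
are elements of `S` below and above `t`; `Int.exists_greatest_of_bdd` and
`Int.exists_least_of_bdd` (bounded by the floor and the ceiling of `t`) and choice. -/
def SDu : Prop :=
  ∀ (p : ℕ) (S : Set ℤ), 1 ≤ p → Lat p S → ∃ dn up : ℝ → ℤ, IsDU S dn up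

/-- Rounding `a` (down) or `b` (up) at the place `j`, with threshold `θ` and position `φ`. -/
noncomputable def rd {α : Type} (θ φ : ℝ) (j : ℕ) (a b : α) : α :=
  if j % 2 = 0 then (if θ < φ then b else a) else (if 1 - φ ≤ θ then b else a)

/-- The relative position of `t` between `dn t` and `up t` (`0` if they are equal). -/
noncomputable def posi (dn up : ℝ → ℤ) (t : ℝ) : ℝ := (t - dn t) / (up t - dn t)

/-- (AVG) Averaging over the threshold. Proof: the function
`f θ = ∑ j ∈ range n, rd θ (φ j) (j + 1) (A j) (B j)` on `[0, 1)` is a finite sum of step functions;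
for `0 ≤ φ ≤ 1` the set of the `θ ∈ [0, 1)` for which the value is `B j` has length `φ j`
(`[0, φ)` or `[1 - φ, 1)`), so the integral of `f` over `[0, 1)` is the right hand side, and some
value of `f` is at most its average. (For instance with `MeasureTheory.exists_le_integral` or
`exists_setAverage_le` on `volume.restrict (Set.Ico 0 1)`, writing the step functions as
`Set.indicator`.) -/
def SAvg : Prop :=
  ∀ (n : ℕ) (A B φ : ℕ → ℝ), (∀ j, 0 ≤ φ j ∧ φ j ≤ 1) →
    ∃ θ : ℝ, 0 ≤ θ ∧ θ < 1 ∧ ∑ j ∈ Finset.range n, rd θ (φ j) (j + 1) (A j) (B j) ≤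
      ∑ j ∈ Finset.range n, ((1 - φ j) * A j + φ j * B j)

/-- (LIN) Hinge functions are linear between neighbours. Proof: if `dn t = up t` then both are equal
to `t`, `posi = 0`. Otherwise the integer `d ∈ S` satisfies `d ≤ dn t` or `up t ≤ d` (either `d ≤ t`
or `t ≤ d`); in the first case `max 0 (· - d)` is `· - d` at the three points, in the second case it
is `0`; and `t = (1 - φ) dn t + φ up t`. Also `0 ≤ posi ≤ 1`. -/
def SLin : Prop :=
  ∀ (S : Set ℤ) (dn up : ℝ → ℤ) (d : ℤ) (t : ℝ), IsDU S dn up → d ∈ S →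
    0 ≤ posi dn up t ∧ posi dn up t ≤ 1 ∧
    max 0 (t - d) = (1 - posi dn up t) * max 0 ((dn t : ℝ) - d) +
      posi dn up t * max 0 ((up t : ℝ) - d)

/-- (RNA) Properties of the rounding. Here `y j = rd θ (posi dn up (x j)) j (dn (x j)) (up (x j))`.
Proof. Always `dn (x j) ≤ y j ≤ up (x j)`, `y j ∈ S`. `x 0 = 0 ∈ S` gives `dn 0 = up 0 = 0`, so
`y 0 = 0`. `x` is monotone on `0, …, n`, so `x j ≥ 0`, and `0 ∈ S` gives `dn (x j) ≥ 0`.
Near sortedness: let `i < j`, `s ∈ S`, `s < y i`. Then `s < up (x i) ≤ up (x j)` (as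
`x i ≤ x j ≤ up (x j) ∈ S`), so `¬ x j ≤ s` (otherwise `up (x j) ≤ s`), so `s ≤ x j`,
`s ≤ dn (x j) ≤ y j`.
Sums: let `K = (j + 1) p`, `x j + x (j + 1) ≥ K`. Let `s = dn (x j)`, `u = up (x j)`. `K - s` and
`K - u` are in `S` by `Lat.refl`. If `x (j + 1) ≥ K - s` then `dn (x (j + 1)) ≥ K - s`, and
`y j ≥ s`: done. Otherwise `K - x j ≤ x (j + 1) < K - s`, so `s < x j` and `s < u`, `x j` is in
`(s, u]`. `dn (x (j + 1)) ≥ K - u` (as `K - u ≤ K - x j ≤ x (j + 1)`), and
`dn (x (j + 1)) = K - u`, since `s' = dn (x (j + 1))` satisfies `s' < K - s`, so `K - s' > s` is in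
`S`, so `K - s' ≥ u` (not `K - s' ≤ dn (x j) = s`, hence not `K - s' ≤ x j`, hence
`K - s' ≥ up (x j)`). Similarly `up (x (j + 1)) = K - s` or `x (j + 1) = K - u` (then
`dn = up = K - u`, hence `x j ≥ u`, `x j = u = s`, contradiction to `s < u`: so this does not
happen). Let `φ = posi (x j) = (x j - s)/(u - s)`,
`φ' = posi (x (j + 1)) = (x (j + 1) - K + u)/(u - s) ≥ 1 - φ`. If `y j = u` then
`y j + y (j + 1) ≥ u + (K - u) = K`. If `y j = s` and `j` is even, then `θ ≥ φ ≥ 1 - φ'`, and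
`j + 1` is odd, so `y (j + 1) = up = K - s`: sum `K`. If `y j = s` and `j` is odd, then
`θ < 1 - φ ≤ φ'`, `j + 1` is even, so `y (j + 1) = up = K - s`. -/
def SRna : Prop :=
  ∀ (p n : ℕ) (S : Set ℤ) (dn up : ℝ → ℤ) (x : ℕ → ℝ) (θ : ℝ), 1 ≤ p → Lat p S → IsDU S dn up →
    Chain p n x → 0 ≤ θ → θ < 1 → ∀ y : ℕ → ℤ,
    (∀ j, y j = rd θ (posi dn up (x j)) j (dn (x j)) (up (x j))) →
    y 0 = 0 ∧ (∀ j ≤ n, y j ∈ S ∧ 0 ≤ y j) ∧
    (∀ i j, i < j → j ≤ n → ∀ s ∈ S, s < y i → s ≤ y j) ∧
    ∀ j < n, ((j : ℤ) + 1) * p ≤ y j + y (j + 1)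

/-- (RND) The rounding theorem. Proof: take `dn`, `up` from (DU); (AVG) with
`A j = w j * max 0 (dn (x (j + 1)) - d j)`, `B j = w j * max 0 (up (x (j + 1)) - d j)`,
`φ j = posi dn up (x (j + 1))` gives `θ`; define `y` as in (RNA). The cost of `y` is the left hand
side of (AVG) (the cost of `rd … a b` is `rd … (cost a) (cost b)`), and the right hand side of (AVG)
is the cost of `x` by (LIN). -/
def SRnd : Prop :=
  SDu → SAvg → SLin → SRna → ∀ (p n : ℕ) (S : Set ℤ) (x : ℕ → ℝ) (w d : ℕ → ℕ), 1 ≤ p →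
    Lat p S → (∀ j < n, (d j : ℤ) ∈ S) → Chain p n x →
    ∃ y : ℕ → ℤ, y 0 = 0 ∧ (∀ j ≤ n, y j ∈ S ∧ 0 ≤ y j) ∧
      (∀ i j, i < j → j ≤ n → ∀ s ∈ S, s < y i → s ≤ y j) ∧
      (∀ j < n, ((j : ℤ) + 1) * p ≤ y j + y (j + 1)) ∧
      ∑ j ∈ Finset.range n, (w j : ℝ) * max 0 ((y (j + 1) : ℝ) - d j) ≤
        ∑ j ∈ Finset.range n, (w j : ℝ) * max 0 (x (j + 1) - d j)

/-- (SRF) The rounded times satisfy the basic inequality. Proof. Put `s = y u`,
`A = {i ≤ n | i ≠ v, y i ≤ s}` (contains `u`), `k = |A|`, `M = max A`. `M ≠ v`. Write (j) for the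
hypothesis `y j + y (j + 1) ≥ (j + 1) p`, and (N) for the near sortedness. Two elements `c < c'` of
`S` without elements of `S` between them satisfy `c' ≤ c + p` (all multiples of `p` are in `S`).
Case 1: `v > M`. Then `k ≤ M + 1`, `M + 1 ≤ n`, and (M) says `y M + y (M + 1) ≥ (M + 1) p ≥ k p`,
`y M ≤ s`. If `y (M + 1) ≤ y v`, done. Otherwise `c = y v < c' = y (M + 1)`, `v > M + 1`. By (N) for
`M + 1 < v`: every element of `S` less than `c'` is at most `c`. By (N) for `v - 1 < v`:
`y (v - 1) ≤ c'` (otherwise `c' < y (v - 1)`, so `c' ≤ c`); this holds also if `v - 1 = M + 1`.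
(v - 1) gives `c + c' ≥ v p ≥ (M + 2) p`. Also `s + c' ≥ y M + c' ≥ (M + 1) p`. Suppose
`s + c < k p`. If `k ≤ M` then `s + c ≥ s + c' - p ≥ M p ≥ k p`, contradiction. So `k = M + 1`,
`A = {0, …, M}`. Then `2 s ≥ M p`: clear if `M = 0` as `s ≥ 0`; otherwise `M - 1, M ∈ A` and
(M - 1). The element `r = (M + 1) p - s` of `S` satisfies `c < r ≤ c'`, so `r = c'` (if `r < c'`
then `r ≤ c`). So `2 (M + 1) p - 2 c' = 2 s ≥ M p`, `2 c' ≤ (M + 2) p`, contradiction to
`c < c'`, `c + c' ≥ (M + 2) p`.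
Case 2: `v < M`. Then `k ≤ M` (as `v ∉ A`), and (M - 1) says
`y (M - 1) + y M ≥ M p ≥ k p`, `y M ≤ s`. If `v = M - 1`, done. If `M - 1 ∈ A` then
`y (M - 1) ≤ s ≤ y v`, done. Otherwise `y (M - 1) > s` and `k ≤ M - 1` (as `v, M - 1 ∉ A`). By (N)
for `M - 1 < M`: every element of `S` less than `c' = y (M - 1)` is at most `y M ≤ s`; so
`y M = s`, and `s < c'` are neighbours. If `y v ≥ c'` then `s + y v ≥ y M + y (M - 1)`, done.
Otherwise `y v = s`, and `2 s ≥ s + c' - p ≥ M p - p ≥ k p`. -/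
def SSrf : Prop :=
  ∀ (p n : ℕ) (S : Set ℤ) (y : ℕ → ℤ), 1 ≤ p → Lat p S → y 0 = 0 →
    (∀ j ≤ n, y j ∈ S ∧ 0 ≤ y j) →
    (∀ i j, i < j → j ≤ n → ∀ s ∈ S, s < y i → s ≤ y j) →
    (∀ j < n, ((j : ℤ) + 1) * p ≤ y j + y (j + 1)) →
    ∀ u ≤ n, ∀ v ≤ n, u ≠ v → y u ≤ y v →
      (p : ℤ) * ((Finset.range (n + 1)).filter fun i => i ≠ v ∧ y i ≤ y u).card ≤ y u + y v

/-- Like `ChnT`, without the condition `t ≤ a + p`. -/
def ChnW (p : ℕ) : ℕ → ℕ → List ℕ → Prop
  | _, _, [] => True
  | s, a, t :: l => a ≤ t ∧ (s + 1) * p ≤ a + t ∧ ChnW p (s + 1) t l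

/-- (LSA) Sorting the integer times. Proof: sort `List.range n` by the values `y (j + 1)`
(for instance the list `List.ofFn (Tuple.sort _)`, or `List.insertionSort`/`mergeSort` with the
relation `y (i + 1) ≤ y (j + 1)`), giving `l = [j₁, …, j_n]`. Let `z_0 = 0`, `z_k = y (j_k + 1)`,
nondecreasing. The inequality `z_k + z_{k+1} ≥ (k + 1) p`: apply the hypothesis with
`u = j_k + 1` (`u = 0` if `k = 0`), `v = j_{k+1} + 1`: the set contains `0, j_1 + 1, …, j_k + 1`,
so its cardinality is at least `k + 1`. -/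
def SLsa : Prop :=
  ∀ (p n : ℕ) (y : ℕ → ℤ), y 0 = 0 → (∀ j ≤ n, 0 ≤ y j) →
    (∀ u ≤ n, ∀ v ≤ n, u ≠ v → y u ≤ y v →
      (p : ℤ) * ((Finset.range (n + 1)).filter fun i => i ≠ v ∧ y i ≤ y u).card ≤ y u + y v) →
    ∃ l : List ℕ, l.Perm (List.range n) ∧ ChnW p 0 0 (l.map fun j => (y (j + 1)).toNat)

/-- Making the steps at most `p`. -/
def trunc (p : ℕ) : ℕ → List ℕ → List ℕ
  | _, [] => []
  | a, t :: l => min t (a + p) :: trunc p (min t (a + p)) l

/-- (TRN) Truncation. Proof: generalize the start: if `ChnW p s a ts`, `a' ≤ a`, `a' ∈ S`,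
`s p ≤ 2 a'`, and (`a' = a` or `(s + 1) p ≤ 2 a'`), then `ChnT p s a' (trunc p a' ts)`, its members
are in `S`, and `Forall₂`. Induction on `ts`: for `t :: l` let `t' = min t (a' + p)`. `a' ≤ t'` as
`a' ≤ a ≤ t`. `t' ≤ a' + p`. `(s + 1) p ≤ a' + t'`: if `t' = a' + p` from `s p ≤ 2 a'`; if `t' = t`
and `a' = a` from the chain; if `t' = t` and `(s + 1) p ≤ 2 a'` from `a' ≤ t`. New invariants:
`2 t' ≥ a' + t' ≥ (s + 1) p`; `t' = t`, or `t' = a' + p` and `2 t' = 2 a' + 2 p ≥ (s + 2) p`.
`a' + p ∈ S` from `Lat.refl` used twice (`-a'`, then `p - (-a')`). -/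
def STrn : Prop :=
  ∀ (p : ℕ) (S : Set ℤ) (ts : List ℕ), Lat p S → (∀ t ∈ ts, (t : ℤ) ∈ S) → ChnW p 0 0 ts →
    ChnT p 0 0 (trunc p 0 ts) ∧ (∀ t ∈ trunc p 0 ts, (t : ℤ) ∈ S) ∧
    List.Forall₂ (· ≤ ·) (trunc p 0 ts) ts

/-- The lattice of an instance: integers congruent to `0` or to plus or minus a due date. -/
def latS (p : ℕ) (L : List Jb) : Set ℤ :=
  {m | (p : ℤ) ∣ m ∨ ∃ x ∈ L, (p : ℤ) ∣ m - x.2.1 ∨ (p : ℤ) ∣ m + x.2.1}

/-- (LAT) Simple properties of the lattice and the list of candidates. Proof of the last part: `m`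
is `(m / p) * p + m % p`, `m / p ≤ n`, and `m % p` is `0`, or `d % p`, or
`(p - d % p) % p` if `p ∣ m + d`. -/
def SLat : Prop :=
  ∀ (p : ℕ) (L : List Jb), 1 ≤ p → Lat p (latS p L) ∧ (∀ x ∈ L, (x.2.1 : ℤ) ∈ latS p L) ∧
    ∀ m : ℕ, (m : ℤ) ∈ latS p L → m ≤ L.length * p → m ∈ cands p L

/-- (LOW) The lower bound: every schedule is at least as expensive as some chain. Proof: let
`C j = S.compl j`. (NECA), (NECB), (SRT) give `e` and `x`. (RND) with the lattice
`latS p (named L)`, weights `w j = (L.get (e j)).1`, due dates `d j = (L.get (e j)).2` (for `j < n`,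
`0` otherwise) gives `y` whose cost is at most `∑ j, w j max 0 (C (e j) - d j) = S.cost L`
(`Equiv.sum_comp`, `Finset.sum_range`). (SRF) and (LSA) give a list `l₀` of the numbers `< n`, and
(TRN) gives smaller times; let `l` be the list of the pairs (job `e (l₀ k)` as a member of
`named L`, `k`-th truncated time). Its jobs are a permutation of `named L`; its cost is at most the
cost of `y` (`tc x t = w (t - d)` with natural subtraction is `w max 0 (t - d)`). -/
def SLow : Prop :=
  SLen → SCpl → SNecA → SNecB → SSrt → SDu → SAvg → SLin → SRna → SRnd → SSrf → SLsa → STrn →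
    SLat → ∀ (p : ℕ) (L : List (ℕ × ℕ)) (S : Sched p L.length), 1 ≤ p →
    ∃ l : List (Jb × ℕ), (l.map Prod.fst).Perm (named L) ∧ ChnT p 0 0 (l.map Prod.snd) ∧
      (∀ e ∈ l, (e.2 : ℤ) ∈ latS p (named L)) ∧ (cst l : ℝ) ≤ S.cost L

/-! ### The schedule of a chain -/

/-- (OUT) A chain gives a schedule. Proof: let the jobs in the order of completion be
`x_1, x_2, …` with times `C_1 ≤ C_2 ≤ …`, `C_0 = 0`. The job `x_{s+1}` has the pieces
`[C_s, C_{s+1}]` on the machine `false` and `[s p - C_s, (s + 1) p - C_{s+1}]` on the machine `true`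
(if they have positive length). `C_s ≤ s p` since all steps are at most `p`, so the natural
subtractions are exact. The total length is `p`. On each machine the pieces are consecutive
intervals, so they do not overlap; the two pieces of one job do not overlap since
`(s + 1) p - C_{s+1} ≤ C_s`. Both end at most at `C_{s+1}` (`(s + 1) p - C_{s+1} ≤ C_s`). The cost is
at most `cst l`. (The names `x.2.2` are the positions in `L`, each occurs exactly once; the entry
`j` of `output` is `pcs` of the job with name `j`.) -/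
def SOut : Prop :=
  ∀ (p : ℕ) (L : List (ℕ × ℕ)) (l : List (Jb × ℕ)), 1 ≤ p → (l.map Prod.fst).Perm (named L) →
    ChnT p 0 0 (l.map Prod.snd) →
    ∃ S : Sched p L.length, (∀ (j : Fin L.length) (q : Bool × ℝ × ℝ), q ∈ S.pieces j ↔
        ∃ r ∈ (output p L.length l).getD j [], castP r = q) ∧
      (∀ j, (S.pieces j).card ≤ 2) ∧ S.cost L ≤ cst l

/-! ### The decomposition theorem -/

/-- (SWP) Swapping a light job `(w, d)` at time `t₁` and a job `(w', d')` at time `t₂`. Proof: all
subtractions are natural. If `t₂ ≤ d` the terms with `w` are zero and `t₁ - d' ≤ t₂ - d'`.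
Otherwise `t₂ > d`. If `t₁ ≤ d`: then `d' ≤ d < t₂`, `t₁ - d = 0` and
`(t₂ - d') - (t₁ - d') ≥ t₂ - d` (it is `t₂ - t₁` or `t₂ - d'`), so
`w' ((t₂ - d') - (t₁ - d')) ≥ w (t₂ - d)`. If `t₁ > d`: `d' ≤ t₁`, both differences are
`t₂ - t₁`. -/
def SSwp : Prop :=
  ∀ w w' d d' t₁ t₂ : ℕ, w ≤ w' → t₁ ≤ t₂ → d' ≤ max t₁ d →
    w' * (t₁ - d') + w * (t₂ - d) ≤ w * (t₁ - d) + w' * (t₂ - d')

/-- (SUB) Omitting jobs does not increase the cost. Proof: induction on the sublist relation,
generalizing `ts`; the case of an omitted head uses `cz l (t :: ts) ≤ cz l ts` for sorted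
`t :: ts` and `l.length ≤ ts.length` (pointwise comparison, by induction on `l`). -/
def SSub : Prop :=
  ∀ (l₁ l₂ : List Jb) (ts : List ℕ), l₁.Sublist l₂ → l₂.length ≤ ts.length →
    ts.Pairwise (· ≤ ·) → cz l₁ ts ≤ cz l₂ ts

/-- (DCA) First half of the decomposition: moving `x` back. Proof: strong induction on the length of
`R`. If some `y ∈ R` has `y.2.1 ≤ max t x.2.1`, `t = ts.getD A.length 0`, write
`R = R₁ ++ y :: R₂` and swap `x` and `y`: the new list is `(A ++ y :: R₁) ++ x :: R₂`, a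
permutation, whose cost is not greater by (SWP) (use `cz_append`, `cz_cons`: only two summands
change, at the positions `A.length` and `A.length + 1 + R₁.length`), and `R₂` is shorter. -/
def SDca : Prop :=
  SSwp → ∀ (x : Jb) (A R : List Jb) (ts : List ℕ), (∀ y ∈ R, x.1 ≤ y.1) →
    ts.length = (A ++ x :: R).length → ts.Pairwise (· ≤ ·) →
    ∃ A' R' : List Jb, (A' ++ x :: R').Perm (A ++ x :: R) ∧
      (∀ y ∈ R', max (ts.getD A'.length 0) x.2.1 < y.2.1) ∧
      cz (A' ++ x :: R') ts ≤ cz (A ++ x :: R) ts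

/-- (DCB) Second half of the decomposition: `A' = A.filter (due date ≤ D)`,
`R' = A.filter (D < due date) ++ R`. Proof of the inequality for the costs: the part `R` is at the
same places in both lists (`cz_append`, the lengths agree). `A' ++ [x]` is a sublist of `A ++ [x]`,
so (SUB) bounds its cost (for `ts.take (A.length + 1)` or for `ts`). The jobs of
`A.filter (D < due date)` are at places `≤ A.length`, hence at times at most
`ts.getD A.length 0 ≤ D`, so their cost is `0`. -/
def SDcb : Prop :=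
  SSub → ∀ (x : Jb) (A R : List Jb) (ts : List ℕ) (D : ℕ),
    ts.length = (A ++ x :: R).length → ts.Pairwise (· ≤ ·) → ts.getD A.length 0 ≤ D →
    (∀ y ∈ R, D < y.2.1) →
    ∃ A' R' : List Jb, (A' ++ x :: R').Perm (A ++ x :: R) ∧ (∀ y ∈ A', y.2.1 ≤ D) ∧
      (∀ y ∈ R', D < y.2.1) ∧ cz (A' ++ x :: R') ts ≤ cz (A ++ x :: R) ts

/-- (DEC) The decomposition theorem (after Lawler): if `x` is a lightest job, then some arrangement
of the same jobs, not more expensive, has the jobs due at most `D` before `x` and the other ones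
after `x`. Proof: `ls = A₀ ++ x :: R₀` (`List.append_of_mem`), apply (DCA), then (DCB) with
`D = max (ts.getD A.length 0) x.2.1`. (The members of `R₀` are members of `B`:
`List.Perm.mem_iff` gives `x` or a member of `B`, both have weight at least `x.1`.) -/
def SDec : Prop :=
  ∀ (x : Jb) (B ls : List Jb) (ts : List ℕ), (∀ y ∈ B, x.1 ≤ y.1) → ls.Perm (x :: B) →
    ts.length = ls.length → ts.Pairwise (· ≤ ·) →
    ∃ (A R : List Jb) (D : ℕ), (A ++ x :: R).Perm ls ∧ (∀ y ∈ A, y.2.1 ≤ D) ∧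
      (∀ y ∈ R, D < y.2.1) ∧ cz (A ++ x :: R) ts ≤ cz ls ts

/-- (DECF) (DEC) from its halves. -/
def SDecF : Prop := SSwp → SSub → SDca → SDcb → SDec

/-! ### Correctness of the table -/

/-- The meaning of an entry for the list `P` of jobs. -/
def Good (p : ℕ) (P : List Jb) (e : Ent) : Prop :=
  (e.2.map Prod.fst).Perm (P.filter (inR e.1.1.1 e.1.1.2)) ∧
  ChnT p e.1.2.1.1 e.1.2.2.1 (e.2.map Prod.snd) ∧
  lastT e.1.2.2.1 (e.2.map Prod.snd) = e.1.2.2.2 ∧
  e.1.2.1.2 = e.1.2.1.1 + e.2.length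

/-- (SND) Soundness of the step. Proof: for a member of the filtered part, the job `x` does not pass
the filter, so `(x :: P).filter _ = P.filter _`. For a member of `joinE p x e f` with thresholds
`h₁ ≤ h ≤ h₂`: `P.filter (inR h₁ h₂)` is a permutation of
`P.filter (inR h₁ h) ++ P.filter (inR h h₂)` (as `h₁ ≤ h ≤ h₂`; e.g. `List.filter_append_perm` for
the predicate `due date < h`), and `x` passes the filter. The chain: `chnT_append`,
`lastT_append`. -/
def SSnd : Prop :=
  ∀ (p : ℕ) (x : Jb) (P : List Jb) (T : List Ent), (∀ e ∈ T, Good p P e) →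
    ∀ e ∈ stepE p x T, Good p (x :: P) e

/-- Completeness of a table for the list `P` of jobs. -/
def Comp (p n : ℕ) (cand th : List ℕ) (P : List Jb) (T : List Ent) : Prop :=
  ∀ h₁ ∈ th, ∀ h₂ ∈ th, h₁ ≤ h₂ → ∀ s : ℕ, ∀ a ∈ cand, ∀ l : List (Jb × ℕ),
    (l.map Prod.fst).Perm (P.filter (inR h₁ h₂)) → s + l.length ≤ n → (∀ e ∈ l, e.2 ∈ cand) →
    ChnT p s a (l.map Prod.snd) →
    ∃ e ∈ T, e.1 = ((h₁, h₂), (s, s + l.length), (a, lastT a (l.map Prod.snd))) ∧
      cst e.2 ≤ cst l

/-- (CMP) Completeness of the step. Proof: let `l` be given for `x :: P`. If `inR h₁ h₂ x` is false,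
the list `(x :: P).filter _` is `P.filter _`; the entry from `Comp … P T` is in the filtered part of
`stepE`. If it is true, let `ls`, `ts` be the jobs and the times of `l`;
`ls.Perm (x :: P.filter (inR h₁ h₂))`. (DEC) with `B = P.filter _` gives `A, R, D`. Let `h = h₁` if
`A = []`, and `h =` the maximum of `y.2.1 + 1` for `y ∈ A` otherwise; `h ∈ th`, `h₁ ≤ h ≤ h₂`
(members of `A` are in `P` and pass the filter), the members of `A` have due dates less than `h`,
those of `R` at least `h` (if `A ≠ []`, `h - 1 ≤ D`; if `A = []`, as they are at least `h₁`).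
From `(A ++ R).Perm (P.filter (inR h₁ h₂))` (cancel `x`) one gets, filtering by `due date < h`,
`A.Perm (P.filter (inR h₁ h))` and `R.Perm (P.filter (inR h h₂))`. Write
`ts = ts₁ ++ t :: ts₂` with `ts₁.length = A.length`; `chnT_append` splits the chain. The lists
`A.zip ts₁` and `R.zip ts₂` and `Comp … P T` (for `(h₁, h), s, a` and
`(h, h₂), s + A.length + 1, t`) give entries `e₁, e₂ ∈ T`, and `joinE p x e₁ e₂` contains the
desired entry; its cost is `cst e₁.2 + tc x t + cst e₂.2 ≤ cz (A ++ x :: R) ts ≤ cz ls ts = cst l`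
(`cst_zip`, `cz_append`, `cz_cons`, `cz_map`). -/
def SCmp : Prop :=
  SDec → ∀ (p n : ℕ) (cand th : List ℕ) (x : Jb) (P : List Jb) (T : List Ent),
    (∀ y ∈ P, x.1 ≤ y.1) → (∀ y ∈ P, y.2.1 + 1 ∈ th) → Comp p n cand th P T →
    Comp p n cand th (x :: P) (stepE p x T)

/-- (BST) The cheapest entry. Proof: induction on the list for the fold (generalize the start). -/
def SBst : Prop :=
  (∀ (l : List Ent) (f : Ent), best l = some f → f ∈ l) ∧
  ∀ (l : List Ent), ∀ e ∈ l, ∃ f, best l = some f ∧ cst f.2 ≤ cst e.2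

/-- (TAB) Pruning the table: members, keys, and completeness. Proof: (BST); for completeness the
key of the entry is in `keys n cand th`: `h₁, h₂ ∈ th`, `s, s + l.length ≤ n`, `a ∈ cand` and
`lastT a _ ∈ cand` by `lastT_mem`. -/
def STab : Prop :=
  SBst → (∀ (U : List Key) (T : List Ent), ∀ e ∈ tabE U T, e ∈ T ∧ e.1 ∈ U) ∧
  ∀ (p n : ℕ) (cand th : List ℕ) (P : List Jb) (T : List Ent), Comp p n cand th P T →
    Comp p n cand th P (tabE (keys n cand th) T)

/-- (INI) The first table. Proof: the only list of jobs for `P = []` is the empty one. -/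
def SIni : Prop :=
  ∀ (p n : ℕ) (cand th : List ℕ), (∀ e ∈ initE n cand th, Good p [] e ∧ e.1 ∈ keys n cand th) ∧
    Comp p n cand th [] (initE n cand th)

/-- (SRW) Sorting by weights. Proof: `insW acc x` is a permutation of `x :: acc`
(`List.filter_append_perm`, `List.perm_middle`) and it is sorted if `acc` is sorted; induction
along the fold. -/
def SSrw : Prop :=
  ∀ L : List Jb, (sortW L).Perm L ∧ (sortW L).Pairwise fun x y => y.1 ≤ x.1

/-- (TBL) Correctness of the table, for a sorted list of members of `L`. Proof: induction on `P` from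
the right (`List.reverseRecOn`): `table p L (P ++ [x]) = tabE _ (stepE p x (table p L P))`
(`List.foldl_append`); (SND), (CMP), (TAB), (INI). The last claim: for a member of
`joinE p x e f` the list is `e.2 ++ (x, f.1.2.2.1) :: f.2`, and `f.1.2.2.1 ∈ cands p L` as `f` is an
entry of the previous table, whose keys are in `keys …`. -/
def STbl : Prop :=
  SDec → SSnd → SCmp → SBst → STab → SIni → ∀ (p : ℕ) (L P : List Jb),
    P.Pairwise (fun x y => y.1 ≤ x.1) → (∀ x ∈ P, x ∈ L) →
    (∀ e ∈ table p L P, Good p P.reverse e ∧ e.1 ∈ keys L.length (cands p L) (ths L) ∧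
      ∀ q ∈ e.2, q.2 ∈ cands p L) ∧
    Comp p L.length (cands p L) (ths L) P.reverse (table p L P)

/-- (SOL) Correctness of the solution. Proof: all jobs pass the filter `inR 0 (topH L)` (the sum of
the `d + 1` is at least each of them), `0, topH L ∈ ths L`, `0 ∈ cands p L`. For every arrangement
`l` of the jobs as in (b), (TBL) for `P = sortW L` gives an entry which passes `isFull`, with cost at
most `cst l`; `best` is at most this. An arrangement exists: any order, with the times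
`p, 2 p, 3 p, …` (they are in `cands p L`). So `best` is not `none`, and its value is `Good`. -/
def SSol : Prop :=
  SBst → SSrw → STbl → SDec → SSnd → SCmp → STab → SIni → ∀ (p : ℕ) (L : List Jb), 1 ≤ p →
    ((solve p L).map Prod.fst).Perm L ∧ ChnT p 0 0 ((solve p L).map Prod.snd) ∧
    ∀ l : List (Jb × ℕ), (l.map Prod.fst).Perm L → ChnT p 0 0 (l.map Prod.snd) →
      (∀ e ∈ l, e.2 ∈ cands p L) → cst (solve p L) ≤ cst l

end Pool.Agent.W312.WT
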