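import Pool.Agent.W312.WT.Defs

/-!
# Small lemmas about chains and costs
-/

set_option autoImplicit false

namespace Pool.Agent.W312.WT

theorem lastT_append (l₂ : List ℕ) : ∀ (l₁ : List ℕ) (a : ℕ),
    lastT a (l₁ ++ l₂) = lastT (lastT a l₁) l₂
  | [], _ => rfl
  | _ :: l₁, _ => by simpa [lastT] using lastT_append l₂ l₁ _

theorem chnT_append (p : ℕ) (l₂ : List ℕ) : ∀ (l₁ : List ℕ) (s a : ℕ),
    ChnT p s a (l₁ ++ l₂) ↔ ChnT p s a l₁ ∧ ChnT p (s + l₁.length) (lastT a l₁) l₂
  | [], s, a => by simp [ChnT, lastT]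
  | t :: l₁, s, a => by
    have h := chnT_append p l₂ l₁ (s + 1) t
    have e : s + 1 + l₁.length = s + (l₁.length + 1) := by omega
    simp only [List.cons_append, ChnT, lastT, List.length_cons, h, e]
    tauto

theorem lastT_mem : ∀ (l : List ℕ) (a : ℕ), lastT a l ∈ a :: l
  | [], a => by simp [lastT]
  | t :: l, a => by
    have := lastT_mem l t
    simp only [lastT, List.mem_cons] at this ⊢
    tauto

theorem ChnT.bounds {p : ℕ} : ∀ {l : List ℕ} {s a : ℕ}, ChnT p s a l →
    ∀ t ∈ l, a ≤ t ∧ t ≤ a + l.length * p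
  | [], _, _, _, t, ht => by simp at ht
  | u :: l, s, a, h, t, ht => by
    obtain ⟨h1, h2, -, h4⟩ := h
    rcases List.mem_cons.1 ht with rfl | ht
    · refine ⟨h1, h2.trans ?_⟩
      simp only [List.length_cons]
      nlinarith
    · have := h4.bounds t ht
      refine ⟨h1.trans this.1, this.2.trans ?_⟩
      simp only [List.length_cons]
      linarith [Nat.add_mul l.length 1 p]

theorem ChnT.sorted {p : ℕ} : ∀ {l : List ℕ} {s a : ℕ}, ChnT p s a l → l.Pairwise (· ≤ ·)
  | [], _, _, _ => List.Pairwise.nil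
  | _ :: _, _, _, h => List.Pairwise.cons (fun t ht => (h.2.2.2.bounds t ht).1) h.2.2.2.sorted

theorem cz_nil (ts : List ℕ) : cz [] ts = 0 := by simp [cz]

theorem cz_cons (x : Jb) (l : List Jb) (t : ℕ) (ts : List ℕ) :
    cz (x :: l) (t :: ts) = tc x t + cz l ts := by simp [cz]

theorem cz_append (l₂ : List Jb) : ∀ (l₁ : List Jb) (ts : List ℕ),
    cz (l₁ ++ l₂) ts = cz l₁ ts + cz l₂ (ts.drop l₁.length)
  | [], ts => by simp [cz]
  | x :: l₁, [] => by simp [cz]
  | x :: l₁, t :: ts => by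
    have := cz_append l₂ l₁ ts
    simp only [List.cons_append, cz_cons, List.length_cons, List.drop_succ_cons, this]
    omega

theorem cst_append (l₁ l₂ : List (Jb × ℕ)) : cst (l₁ ++ l₂) = cst l₁ + cst l₂ := by
  simp [cst]

theorem cst_cons (e : Jb × ℕ) (l : List (Jb × ℕ)) : cst (e :: l) = tc e.1 e.2 + cst l := by
  simp [cst]

theorem cst_zip : ∀ (l : List Jb) (ts : List ℕ), cst (l.zip ts) = cz l ts
  | [], _ => by simp [cst, cz]
  | _ :: _, [] => by simp [cst, cz]
  | x :: l, t :: ts => by simp [cst_cons, cz_cons, cst_zip l ts]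

theorem cz_map (l : List (Jb × ℕ)) : cz (l.map Prod.fst) (l.map Prod.snd) = cst l := by
  induction l with
  | nil => rfl
  | cons e l ih => simp [cz_cons, cst_cons, ih]

end Pool.Agent.W312.WT
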