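import Pool.Agent.W312.WT.Asm
import Pool.Agent.W391.WT.SLen
import Pool.Agent.W637.WT.SCpl
import Pool.Agent.W368.WT.SNecA
import Pool.Agent.W303.WT.SNecB
import Pool.Agent.W753.WT.SSrt
import Pool.Agent.W782.WT.SDu
import Pool.Agent.W366.WT.SAvg
import Pool.Agent.W571.WT.SLin
import Pool.Agent.W196.WT.SRna
import Pool.Agent.W828.WT.SRnd
import Pool.Agent.W359.WT.SSrf
import Pool.Agent.W490.WT.SLsa
import Pool.Agent.W589.WT.STrn
import Pool.Agent.W377.WT.SLat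
import Pool.Agent.W298.WT.SLow
import Pool.Agent.W298.WT.SOut
import Pool.Agent.W376.WT.SSwp
import Pool.Agent.W348.WT.SSub
import Pool.Agent.W61.WT.SDca
import Pool.Agent.W351.WT.SDcb
import Pool.Agent.W688.WT.SDecF
import Pool.Agent.W922.WT.SSnd
import Pool.Agent.W683.WT.SCmp
import Pool.Agent.W591.WT.SBst
import Pool.Agent.W701.WT.SIni
import Pool.Agent.W347.WT.STbl
import Pool.Agent.W638.WT.SSol
import Pool.Agent.W32.WT.PCst
import Pool.Agent.W800.WT.PBest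
import Pool.Agent.W999.WT.PKeys
import Pool.Agent.W315.WT.Sort
import Pool.Agent.W371.WT.PSize
import Pool.Agent.W800.WT.PSolve
import Pool.Agent.W358.WT.POut

/-!
# All parts together
-/

set_option autoImplicit false

namespace Pool.Agent.W312.WT

open Pool.Agent.NPC

theorem dec_final : SDec :=
  Pool.Agent.W688.WT.SDecF.proof_SDecF Pool.Agent.W376.WT.proof_SSwp Pool.Agent.W348.WT.proof_SSub
    Pool.Agent.W61.WT.proof_SDca Pool.Agent.W351.WT.proof_SDcb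

theorem low_final : ∀ (p : ℕ) (L : List (ℕ × ℕ)) (S : Sched p L.length), 1 ≤ p →
    ∃ l : List (Jb × ℕ), (l.map Prod.fst).Perm (named L) ∧ ChnT p 0 0 (l.map Prod.snd) ∧
      (∀ e ∈ l, (e.2 : ℤ) ∈ latS p (named L)) ∧ (cst l : ℝ) ≤ S.cost L :=
  Pool.Agent.W298.WT.SLow.proof_SLow Pool.Agent.W391.WT.proof_SLen Pool.Agent.W637.WT.proof_SCpl
    Pool.Agent.W368.WT.proof_SNecA Pool.Agent.W303.WT.proof_SNecB Pool.Agent.W753.WT.proof_SSrt
    Pool.Agent.W782.WT.proof_SDu Pool.Agent.W366.WT.SAvg.proof_SAvg Pool.Agent.W571.WT.proof_SLin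
    Pool.Agent.W196.WT.proof_SRna Pool.Agent.W828.WT.proof_SRnd Pool.Agent.W359.WT.proof_SSrf
    Pool.Agent.W490.WT.proof_SLsa Pool.Agent.W589.WT.proof_STrn Pool.Agent.W377.WT.proof_SLat

theorem tbl_final : ∀ (p : ℕ) (L P : List Jb),
    P.Pairwise (fun x y => y.1 ≤ x.1) → (∀ x ∈ P, x ∈ L) →
    (∀ e ∈ table p L P, Good p P.reverse e ∧ e.1 ∈ keys L.length (cands p L) (ths L) ∧
      ∀ q ∈ e.2, q.2 ∈ cands p L) ∧
    Comp p L.length (cands p L) (ths L) P.reverse (table p L P) :=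
  Pool.Agent.W347.WT.proof_STbl dec_final Pool.Agent.W922.WT.proof_SSnd
    Pool.Agent.W683.WT.proof_SCmp Pool.Agent.W591.WT.proof_SBst Pool.Agent.W591.WT.proof_STab
    Pool.Agent.W701.WT.proof_SIni

theorem sol_final : ∀ (p : ℕ) (L : List Jb), 1 ≤ p →
    ((solve p L).map Prod.fst).Perm L ∧ ChnT p 0 0 ((solve p L).map Prod.snd) ∧
    ∀ l : List (Jb × ℕ), (l.map Prod.fst).Perm L → ChnT p 0 0 (l.map Prod.snd) →
      (∀ e ∈ l, e.2 ∈ cands p L) → cst (solve p L) ≤ cst l :=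
  Pool.Agent.W638.WT.proof_SSol Pool.Agent.W591.WT.proof_SBst Pool.Agent.W701.WT.proof_SSrw
    Pool.Agent.W347.WT.proof_STbl dec_final Pool.Agent.W922.WT.proof_SSnd
    Pool.Agent.W683.WT.proof_SCmp Pool.Agent.W591.WT.proof_STab Pool.Agent.W701.WT.proof_SIni

theorem best_poly : Poly (fun l : List Ent => best l) :=
  Pool.Agent.W800.WT.proof_PBest Pool.Agent.W591.WT.proof_SBst Pool.Agent.W32.WT.proof_PCst

theorem sort_poly : Poly (fun L : List Jb => sortW L) :=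
  Pool.Agent.W315.WT.proof_PSort Pool.Agent.W701.WT.proof_SSrw

theorem size_final : ∃ b : Polynomial ℕ, ∀ (p : ℕ) (L P : List Jb),
    P.Pairwise (fun x y => y.1 ≤ x.1) → (∀ x ∈ P, x ∈ L) → P.length ≤ L.length →
    sz (table p L P) ≤ b.eval (sz (p, L)) :=
  Pool.Agent.W371.WT.PSize.proof_PSize (fun p L P h1 h2 => (tbl_final p L P h1 h2).1)
    Pool.Agent.W999.WT.proof_PKeys Pool.Agent.W999.WT.proof_PCand

theorem solve_poly : Poly (fun q : ℕ × List Jb => solve q.1 q.2) :=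
  Pool.Agent.W800.WT.proof_PSolve Pool.Agent.W701.WT.proof_SSrw sort_poly
    Pool.Agent.W999.WT.proof_PKeys (Pool.Agent.W32.WT.proof_PStep Pool.Agent.W32.WT.proof_PJoin)
    (Pool.Agent.W800.WT.proof_PTab best_poly) best_poly size_final

theorem final :
    InPP (fun I : ℕ × List (ℕ × ℕ) × ℕ =>
      1 ≤ I.1 ∧ ∃ S : Sched I.1 I.2.1.length, S.cost I.2.1 ≤ (I.2.2 : ℝ)) ∧
    (∀ p : ℕ, 1 ≤ p → InPP (fun I : List (ℕ × ℕ) × ℕ =>
      ∃ S : Sched p I.1.length, S.cost I.1 ≤ (I.2 : ℝ))) ∧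
    ∃ A : List Bool → List Bool, PolyTime A ∧ ∀ (p : ℕ) (L : List (ℕ × ℕ)), 1 ≤ p →
      ∃ (v : ℕ) (out : List (List (Bool × ℕ × ℕ))) (S : Sched p L.length),
        A (bits (p, L)) = bits (v, out) ∧
        (∀ (j : Fin L.length) (q : Bool × ℝ × ℝ), q ∈ S.pieces j ↔
          ∃ r ∈ out.getD j [], castP r = q) ∧
        (∀ j, (S.pieces j).card ≤ 2) ∧ S.cost L = (v : ℝ) ∧
        ∀ S' : Sched p L.length, S.cost L ≤ S'.cost L :=
  assembly (main_math Pool.Agent.W298.WT.SOut.proof_SOut low_final Pool.Agent.W377.WT.proof_SLat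
    sol_final) solve_poly Pool.Agent.W315.WT.proof_PNamed Pool.Agent.W32.WT.proof_PCst
    Pool.Agent.W358.WT.proof_POut

end Pool.Agent.W312.WT
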