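import Pool.Agent.W312.WT.Stm
import Pool.Agent.NPC.Num

/-!
# The polynomial-time parts of the proof

`Poly f` (in `Pool.Agent.NPC.Enc`) says that `f` is computable in polynomial time (in the sense of
Mathlib's Turing machines) for the standard encodings. The closure properties needed are in
`Pool.Agent.NPC.Enc` and `Pool.Agent.NPC.Num`: `Poly.pair`, `Poly.fst`, `Poly.snd`, `Poly.ite`,
`Poly.optCases`, `Poly.cons`, `Poly.append`, `Poly.map`, `Poly.flatMap`, `Poly.filter`,
`Poly.foldl` (with a bound for the sizes), `Poly.add`, `Poly.sub`, `Poly.mul`, `Poly.mod`,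
`Poly.sum`, `Poly.zipIdx`, `Poly.length`, `Poly.range_length`, `UPoly.range`, `Poly.decide_and`,
`Poly.decide_eq`, `Poly.decide_lt`, `Poly.decide_le`.
-/

set_option autoImplicit false

namespace Pool.Agent.W312.WT

open Pool.Agent.NPC

/-- (PCS) The cost of a list of jobs with times. -/
def PCst : Prop := Poly (fun l : List (Jb × ℕ) => cst l)

/-- (PJN) Combining entries. -/
def PJoin : Prop :=
  Poly (fun q : ℕ × Jb × Ent × Ent => joinE q.1 q.2.1 q.2.2.1 q.2.2.2)

/-- (PST) The step. -/
def PStep : Prop :=
  PJoin → Poly (fun q : ℕ × Jb × List Ent => stepE q.1 q.2.1 q.2.2)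

/-- (PBE) The cheapest entry. Proof: `Poly.foldl`; every intermediate result is `none` or `some` of
a member of the list ((BST)), so the sizes are bounded. -/
def PBest : Prop := SBst → PCst → Poly (fun l : List Ent => best l)

/-- (PTA) Pruning. -/
def PTab : Prop :=
  Poly (fun l : List Ent => best l) → Poly (fun q : List Key × List Ent => tabE q.1 q.2)

/-- (PKE) The list of the keys, the first table. -/
def PKeys : Prop :=
  Poly (fun q : ℕ × List Jb => keys q.2.length (cands q.1 q.2) (ths q.2)) ∧
  Poly (fun q : ℕ × List Jb => initE q.2.length (cands q.1 q.2) (ths q.2))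

/-- (PSO) Sorting. Proof: `Poly.foldl`; the intermediate results are permutations of prefixes of the
list ((SRW)), so their sizes are bounded (`sz_le_length_mul`). -/
def PSort : Prop := SSrw → Poly (fun L : List Jb => sortW L)

/-- The conclusion of (TBL) needed for the bound. -/
def TblC : Prop :=
  ∀ (p : ℕ) (L P : List Jb), P.Pairwise (fun x y => y.1 ≤ x.1) → (∀ x ∈ P, x ∈ L) →
    ∀ e ∈ table p L P, Good p P.reverse e ∧ e.1 ∈ keys L.length (cands p L) (ths L) ∧
      ∀ q ∈ e.2, q.2 ∈ cands p L

/-- (PSZ) The sizes of the tables are polynomially bounded. Proof: the length of `table p L P` is at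
most the length of `keys …` if `P` is not empty (`tabE` takes at most one entry for every key), and
`table p L [] = initE …` is polynomial by (PKE). An entry `e` has `e.1 ∈ keys …`, so the size of
`e.1` is at most that of `keys …`; `e.2.length ≤ P.length ≤ L.length` (from `Good`: the jobs of
`e.2` are a permutation of a sublist of `P.reverse`); every member of `e.2` is a pair of a member of
`L` and a member of `cands p L`. The sizes of `keys`, `cands`, `L` are polynomially bounded
(`Poly.sz_le`; for `cands`: `Poly` as in (PKE)); use `sz_le_length_mul` twice. -/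
def PSize : Prop :=
  TblC → PKeys → Poly (fun q : ℕ × List Jb => cands q.1 q.2) →
    ∃ b : Polynomial ℕ, ∀ (p : ℕ) (L P : List Jb), P.Pairwise (fun x y => y.1 ≤ x.1) →
      (∀ x ∈ P, x ∈ L) → P.length ≤ L.length → sz (table p L P) ≤ b.eval (sz (p, L))

/-- (PCA) The list of candidates. -/
def PCand : Prop := Poly (fun q : ℕ × List Jb => cands q.1 q.2)

/-- (PSV) The solution. Proof: `Poly.foldl` for the table with the bound (PSZ) (prefixes of the
sorted list `sortW L` are sorted, consist of members of `L`, and are not longer than `L`), then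
`Poly.filter`, `best`, `Poly.optCases`. -/
def PSolve : Prop :=
  SSrw → Poly (fun L : List Jb => sortW L) → PKeys →
    Poly (fun q : ℕ × Jb × List Ent => stepE q.1 q.2.1 q.2.2) →
    Poly (fun q : List Key × List Ent => tabE q.1 q.2) → Poly (fun l : List Ent => best l) →
    (∃ b : Polynomial ℕ, ∀ (p : ℕ) (L P : List Jb), P.Pairwise (fun x y => y.1 ≤ x.1) →
      (∀ x ∈ P, x ∈ L) → P.length ≤ L.length → sz (table p L P) ≤ b.eval (sz (p, L))) →
    Poly (fun q : ℕ × List Jb => solve q.1 q.2)

/-- (PNA) Naming the jobs. -/
def PNamed : Prop := Poly (fun L : List (ℕ × ℕ) => named L)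

/-- (POU) The output. Proof: `outL p s a l` is computed by a left fold with the state
`(s, a, list of the results so far)`; the sizes of the intermediate results are bounded: `s ≤ l.length`,
`a` is one of the times, every result is a pair of a name and a list of at most two pieces with
numbers at most `(s + 1) p` or the times (`sz_nat_mono_le`). -/
def POut : Prop :=
  Poly (fun q : ℕ × List (ℕ × ℕ) × List (Jb × ℕ) => output q.1 q.2.1.length q.2.2)

end Pool.Agent.W312.WT
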